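import Pool.Agent.E8helper42.AZ.Stm4

/-!
Project AZ: the exponential function at infinity, its transcendence over the rational functions at zero.
-/

set_option autoImplicit false

namespace Pool.Agent.E8helper23.AZ

open Polynomial
open Pool.Agent.E8helper42.AZ

/-- `exp (-γ z)` -/
noncomputable def ex (γ : ℝ) : RR := HahnSeries.single (mk γ 0) 1

lemma ex_ne (γ : ℝ) : ex γ ≠ 0 := HahnSeries.single_ne_zero one_ne_zero

lemma ex_mul (γ δ : ℝ) : ex γ * ex δ = ex (γ + δ) := by
  rw [ex, ex, ex, HahnSeries.single_mul_single, one_mul]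
  rfl

lemma ex_zero : ex 0 = 1 := rfl

lemma th_ex (γ : ℝ) : dI.th (ex γ) = algebraMap ℂ RR (-(γ : ℂ)) * (dI.z * ex γ) := by
  have h1 : dI.z * ex γ = HahnSeries.single (mk γ (-2)) 1 := by
    have e0 : mk 0 (-2) + mk γ 0 = mk γ (-2) := by
      apply gam_ext <;> simp
    rw [Dat.z, ex, HahnSeries.single_mul_single, one_mul, dI_g₀, e0]
  rw [h1, ← Algebra.smul_def]
  ext1
  funext g
  rw [dI.coeff_th, HahnSeries.coeff_smul, ex, HahnSeries.coeff_single, HahnSeries.coeff_single,
    HahnSeries.coeff_single]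
  have h2 : (g - dI.g₀ = mk γ 0) ↔ g = mk γ (-2) := by
    rw [dI_g₀, sub_eq_iff_eq_add]
    have : mk γ 0 + mk 0 (-2) = mk γ (-2) := by
      apply gam_ext <;> simp
    rw [this]
  have h3 : ∀ (p : Prop) [Decidable p], derivative (if p then (1 : ℂ[X]) else 0) = 0 := by
    intro p _
    split_ifs <;> simp
  have h4 : ∀ x : ℂ[X], (g ≠ mk γ 0 → x = 0) → C (dI.χ₁ g) * x = 0 := by
    intro x hx
    by_cases h : g = mk γ 0
    · rw [h]
      simp
    · rw [hx h, mul_zero]
  rw [h3, h4 _ (fun h => if_neg h), zero_add, zero_add]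
  by_cases h5 : g = mk γ (-2)
  · rw [if_pos (h2.2 h5), if_pos h5, h5, dI_χ₂, p1_mk, Polynomial.smul_eq_C_mul]
    simp
  · rw [if_neg (fun h => h5 (h2.1 h)), if_neg h5, mul_zero, smul_zero]

lemma emb_X (d : Dat) : d.emb RatFunc.X = d.z := by
  rw [← RatFunc.algebraMap_X, d.emb_poly, aeval_X]

/-- the character `p1` -/
noncomputable def ch1 : Gam →+ ℂ := ((Complex.ofRealHom : ℝ →+* ℂ).toAddMonoidHom).comp p1

lemma cw_ex (γ : ℝ) : cw 0 ch1 (ex γ) = algebraMap ℂ RR (γ : ℂ) * ex γ := by
  rw [← Algebra.smul_def]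
  ext1
  funext g
  rw [cw_coeff, HahnSeries.coeff_smul, ex, HahnSeries.coeff_single]
  split_ifs with h
  · rw [h, Polynomial.smul_eq_C_mul]
    simp [ch1]
  · simp

/-- `exp (k z)` is not a rational function -/
lemma no_exp (k : ℕ) (hk : 1 ≤ k) (u : FF) (hu : thF u = (k : FF) * (RatFunc.X * u)) : u = 0 := by
  have h1 : dI.th (dI.emb u) = (k : RR) * (dI.z * dI.emb u) := by
    rw [dI.emb_th, hu, map_mul, map_mul, map_natCast, emb_X]
  have h2 : dI.th (ex k * dI.emb u) = 0 := by
    rw [Derivation.leibniz, smul_eq_mul, smul_eq_mul, h1, th_ex]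
    have : algebraMap ℂ RR (-((k : ℝ) : ℂ)) = - (k : RR) := by
      rw [map_neg]
      congr 1
    rw [this]
    ring
  obtain ⟨c, hc⟩ := dI.const h2
  have h3 : cw 0 ch1 (ex k * dI.emb u) = 0 := by
    rw [hc, Derivation.map_algebraMap]
  rw [Derivation.leibniz, smul_eq_mul, smul_eq_mul, cw_emb dI 0 ch1 (by simp [ch1]), mul_zero, zero_add, cw_ex] at h3
  have h4 : dI.emb u = 0 := by
    rcases mul_eq_zero.1 h3 with h5 | h5
    · exact h5
    · exfalso
      rcases mul_eq_zero.1 h5 with h6 | h6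
      · have h7 : ((k : ℝ) : ℂ) = 0 := by
          have := (map_eq_zero_iff (algebraMap ℂ RR) (algebraMap ℂ RR).injective).1 h6
          exact this
        have h8 : k = 0 := by exact_mod_cast h7
        omega
      · exact ex_ne _ h6
  exact (map_eq_zero_iff dI.emb dI.emb.injective).1 h4

lemma th_pow (R : Type) [CommRing R] [Algebra ℂ R] (θ : Derivation ℂ R R) (z E : R) (h : θ E = z * E) (j : ℕ) :
    θ (E ^ j) = (j : R) * (z * E ^ j) := by
  induction j with
  | zero => simp
  | succ j ih =>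
    rw [pow_succ, Derivation.leibniz, smul_eq_mul, smul_eq_mul, ih, h]
    push_cast
    ring

/-- transcendence of the exponential function -/
theorem transc (R : Type) [CommRing R] [IsDomain R] [Algebra ℂ R] [Algebra FF R] (θ : Derivation ℂ R R)
    (hθ : ∀ a, θ (algebraMap FF R a) = algebraMap FF R (thF a)) (E : R) (hE0 : E ≠ 0)
    (hE : θ E = algebraMap FF R RatFunc.X * E) (p : FF[X]) (hp : aeval E p = 0) : p = 0 := by
  by_contra hp0
  have hint : IsIntegral FF E := isAlgebraic_iff_isIntegral.1 ⟨p, hp0, hp⟩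
  set q := minpoly FF E with hq
  have hq0 : aeval E q = 0 := minpoly.aeval FF E
  have hm : q.Monic := minpoly.monic hint
  set m := q.natDegree with hmd
  set r : FF[X] := ∑ j ∈ Finset.range (m + 1), C (thF (q.coeff j) + ((j : FF) - (m : FF)) * (RatFunc.X * q.coeff j)) * X ^ j
    with hr
  have hrc : ∀ j, r.coeff j = if j ∈ Finset.range (m + 1) then
      thF (q.coeff j) + ((j : FF) - (m : FF)) * (RatFunc.X * q.coeff j) else 0 := by
    intro j
    rw [hr, Polynomial.finsetSum_coeff]
    simp only [Polynomial.coeff_C_mul_X_pow]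
    rw [Finset.sum_ite_eq]
  have h1 : aeval E r = 0 := by
    have h2 : aeval E q = ∑ j ∈ Finset.range (m + 1), algebraMap FF R (q.coeff j) * E ^ j := by
      rw [aeval_eq_sum_range]
      apply Finset.sum_congr rfl
      intro j _
      rw [Algebra.smul_def]
    have h3 : θ (aeval E q) = ∑ j ∈ Finset.range (m + 1),
        (algebraMap FF R (q.coeff j) * ((j : R) * (algebraMap FF R RatFunc.X * E ^ j)) +
          E ^ j * algebraMap FF R (thF (q.coeff j))) := by
      rw [h2, map_sum]
      apply Finset.sum_congr rfl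
      intro j _
      rw [Derivation.leibniz, smul_eq_mul, smul_eq_mul, hθ, th_pow R θ _ E hE]
    rw [hq0, map_zero] at h3
    have h4 : aeval E r = ∑ j ∈ Finset.range (m + 1),
        (algebraMap FF R (q.coeff j) * ((j : R) * (algebraMap FF R RatFunc.X * E ^ j)) +
          E ^ j * algebraMap FF R (thF (q.coeff j))) -
        (m : R) * (algebraMap FF R RatFunc.X * ∑ j ∈ Finset.range (m + 1), algebraMap FF R (q.coeff j) * E ^ j) := by
      rw [hr, map_sum, Finset.mul_sum, Finset.mul_sum, ← Finset.sum_sub_distrib]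
      apply Finset.sum_congr rfl
      intro j _
      rw [map_mul, map_pow, aeval_X, aeval_C, map_add, map_mul, map_mul, map_sub, map_natCast, map_natCast]
      ring
    rw [h4, ← h3, ← h2, hq0, mul_zero, mul_zero, sub_zero]
  have hrm : r.coeff m = 0 := by
    rw [hrc, if_pos (by simp), hm.coeff_natDegree, sub_self, zero_mul, add_zero]
    exact Derivation.map_one_eq_zero thF
  have hr0 : r = 0 := by
    by_contra hne
    have h5 := minpoly.degree_le_of_ne_zero FF E hne h1
    have h6 : r.degree < q.degree := by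
      rw [Polynomial.degree_eq_natDegree hm.ne_zero, ← hmd, Polynomial.degree_lt_iff_coeff_zero]
      intro j hj
      rcases hj.eq_or_lt with h7 | h7
      · rw [← h7]
        exact hrm
      · rw [hrc, if_neg]
        rw [Finset.mem_range]
        omega
    exact absurd (lt_of_le_of_lt h5 h6) (lt_irrefl _)
  have h8 : ∀ j < m, q.coeff j = 0 := by
    intro j hj
    have h9 := hrc j
    rw [hr0, Polynomial.coeff_zero, if_pos (by rw [Finset.mem_range]; omega)] at h9
    apply no_exp (m - j) (by omega)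
    rw [Nat.cast_sub hj.le]
    linear_combination -h9
  have h10 : q = X ^ m := by
    apply Polynomial.ext
    intro j
    rw [Polynomial.coeff_X_pow]
    rcases lt_trichotomy j m with h11 | h11 | h11
    · rw [if_neg h11.ne, h8 j h11]
    · rw [if_pos h11, h11, hm.coeff_natDegree]
    · rw [if_neg h11.ne', Polynomial.coeff_eq_zero_of_natDegree_lt h11]
  rw [h10, map_pow, aeval_X] at hq0
  exact hE0 (eq_zero_of_pow_eq_zero hq0)

theorem t_EXP : S_EXP := by
  refine ⟨⟨(ex (-1) : RR), ⟨(ex 1 : RR), ?_⟩, ?_⟩, ?_⟩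
  · show ex (-1) * ex 1 = 1
    rw [ex_mul, neg_add_cancel, ex_zero]
  · show dI.th (ex (-1)) = dI.emb RatFunc.X * ex (-1)
    rw [th_ex, emb_X]
    simp
  · intro E hE hθ q hq
    obtain ⟨E', hE'⟩ := hE
    have hE0 : E ≠ 0 := by
      intro h
      rw [h, zero_mul] at hE'
      exact zero_ne_one hE'
    exact transc (RD d0) (thD d0) (thD_emb d0) E hE0 hθ q hq

end Pool.Agent.E8helper23.AZ
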